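import Pool.Agent.Q227.DB.Dual

/-!
# Balanced configurations whose dual has another dimension

The grid configuration `[k]^k` (points: the `k^k` vectors, lines: the `k^k` axis-parallel lines) is
balanced. Its dimension is `2^k - 1`, and the dimension of its dual is `k^2 - k + 1`.
-/

namespace Pool.Agent.Results.MP_d6bd81_co.DualDimensions

open Pool.Agent.Q227.DB

theorem ineq (k : ℕ) (hk : 4 ≤ k) : k ^ 2 - k + 1 < 2 ^ k - 1 := by
  have main : k ^ 2 + 3 ≤ 2 ^ k + k := by
    induction k, hk using Nat.le_induction with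
    | base => norm_num
    | succ k hk ih =>
      have h1 : 2 ^ (k + 1) = 2 * 2 ^ k := by ring
      rw [h1]
      nlinarith
  have h1 : k ≤ k ^ 2 := by nlinarith
  omega

/-- For every `k ≥ 4` there is a balanced configuration `(n_k)`, `n = k^k`, such that it and its
dual have geometric realizations, and their dimensions are `2^k - 1` and `k^2 - k + 1`, which are
different. -/
theorem result : ∀ k : ℕ, 4 ≤ k → ∃ (P L : Type) (I : P → L → Prop),
    IsBalanced I k ∧ Nat.card P = k ^ k ∧
      HasDim I (2 ^ k - 1) ∧ HasDim (dual I) (k ^ 2 - k + 1) ∧ k ^ 2 - k + 1 < 2 ^ k - 1 := by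
  intro k hk
  haveI : NeZero k := ⟨by omega⟩
  have hk2 : 2 ≤ k := by omega
  exact ⟨GrP k, GrL k, GrI k, grid_balanced hk2, by simp, grid_dim hk2, dual_dim hk2, ineq k hk⟩

end Pool.Agent.Results.MP_d6bd81_co.DualDimensions
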